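import Mathlib

set_option autoImplicit false

namespace Pool.Agent.P.MP_993692_co

open Finset

/-- Shift the first letter of a word. -/
def sh (e : ℕ) : List ℕ → List ℕ
  | [] => []
  | a :: l => (a + e) :: l

/-- Two words are equal or one extends the other by a letter. -/
def Near (l m : List ℕ) : Prop := l = m ∨ (∃ a, l = m ++ [a]) ∨ (∃ a, m = l ++ [a])

theorem Near.cons {l m : List ℕ} (h : Near l m) (b : ℕ) : Near (b :: l) (b :: m) := by
  rcases h with h | ⟨a, h⟩ | ⟨a, h⟩
  · exact Or.inl (by rw [h])
  · exact Or.inr (Or.inl ⟨a, by rw [h]; rfl⟩)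
  · exact Or.inr (Or.inr ⟨a, by rw [h]; rfl⟩)

theorem sh_append (e : ℕ) (m : List ℕ) (a : ℕ) : ∃ b, sh e (m ++ [a]) = sh e m ++ [b] := by
  cases m with
  | nil => exact ⟨a + e, rfl⟩
  | cons c m => exact ⟨a, rfl⟩

theorem Near.sh {l m : List ℕ} (h : Near l m) (e : ℕ) : Near (sh e l) (sh e m) := by
  rcases h with h | ⟨a, h⟩ | ⟨a, h⟩
  · exact Or.inl (by rw [h])
  · exact Or.inr (Or.inl (h ▸ sh_append e m a))
  · exact Or.inr (Or.inr (h ▸ sh_append e l a))

/-- The data carried through the induction. -/
structure Placed {V : Type} [DecidableEq V] (G : SimpleGraph V) (K c : ℕ) (W S : Finset V)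
    (π : V → List ℕ) (e : ℕ) : Prop where
  near : ∀ u ∈ W, ∀ v ∈ W, G.Adj u v → Near (π u) (π v)
  root : ∀ v ∈ S, π v = []
  fib : ∀ l, (W.filter (fun v => π v = l)).card ≤ c
  lab : ∀ v ∈ W, ∀ a ∈ π v, a < c
  head : ∀ v ∈ W, ∀ a l, π v = a :: l → a < e
  inv : (W.filter (fun v => π v = [])).card + e ≤ S.card + 1 ∨
    (W.filter (fun v => π v = [])).card + e + 4 * K ≤ 2 * S.card

theorem place_aux {V : Type} [Fintype V] [DecidableEq V] (G : SimpleGraph V) [DecidableRel G.Adj]
    (K ℓ : ℕ) (hK : 0 < K) (hdeg : ∀ v, (G.neighborFinset v).card ≤ ℓ)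
    (hsep : ∀ S : Finset V, ∃ X A : Finset V, X.card ≤ K ∧ Disjoint A X ∧
      (∀ u v, G.Adj u v → u ∈ A → v ∈ A ∨ v ∈ X) ∧
      4 * (S ∩ A).card ≤ 3 * S.card ∧ 4 * (S \ (A ∪ X)).card ≤ 3 * S.card) :
    ∀ (n : ℕ) (W S : Finset V), W.card = n → S ⊆ W → S.Nonempty → S.card ≤ 24 * K * ℓ + 1 →
      ∃ (π : V → List ℕ) (e : ℕ), Placed G K (2 * (24 * K * ℓ + 1)) W S π e := by
  intro n
  induction n using Nat.strong_induction_on with
  | _ n ih =>
    intro W S hn hSW hS hSc
    set M := 24 * K * ℓ + 1 with hM
    have hM1 : 1 ≤ M := by omega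
    by_cases hsmall : S.card < 24 * K
    · rcases (W \ S).eq_empty_or_nonempty with hWS | ⟨v0, hv0⟩
      · have hW : W = S := Subset.antisymm (sdiff_eq_empty_iff_subset.1 hWS) hSW
        subst hW
        refine ⟨fun _ => [], 0, ⟨fun _ _ _ _ _ => Or.inl rfl, fun _ _ => rfl, fun l => ?_,
          fun _ _ a ha => absurd ha (by simp), fun _ _ a l h => absurd h (by simp), Or.inl ?_⟩⟩
        · exact (card_filter_le _ _).trans (by omega)
        · exact (card_filter_le _ _).trans (by omega)
      · set S' : Finset V := insert v0 ((S.biUnion (fun v => G.neighborFinset v)) ∩ (W \ S))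
          with hS'
        have hS'W : S' ⊆ W \ S := insert_subset hv0 inter_subset_right
        have hS'c : S'.card ≤ M := by
          refine (card_insert_le _ _).trans (Nat.add_le_add_right ?_ 1)
          refine (card_le_card inter_subset_left).trans ?_
          refine (card_biUnion_le_card_mul S _ ℓ (fun v _ => hdeg v)).trans ?_
          exact Nat.mul_le_mul_right ℓ hsmall.le
        have hlt : (W \ S).card < n := by
          rw [← hn]
          exact card_lt_card (sdiff_ssubset hSW hS)
        obtain ⟨π', e', h'⟩ := ih _ hlt (W \ S) S' rfl hS'W (insert_nonempty _ _) hS'c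
        have hfil : W.filter (fun v => (if v ∈ S then [] else 0 :: π' v) = []) = S := by
          ext v
          by_cases hv : v ∈ S
          · simp [hv, hSW hv]
          · simp [hv]
        refine ⟨fun v => if v ∈ S then [] else 0 :: π' v, 1, ⟨?_, ?_, ?_, ?_, ?_, ?_⟩⟩
        · intro u hu v hv huv
          have aux : ∀ a b, a ∈ S → b ∈ W → b ∉ S → G.Adj a b → π' b = [] := by
            intro a b ha hb hbS hab
            apply h'.root
            refine mem_insert_of_mem (mem_inter.2 ⟨mem_biUnion.2 ⟨a, ha, ?_⟩, ?_⟩)
            · exact (G.mem_neighborFinset a b).2 hab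
            · exact mem_sdiff.2 ⟨hb, hbS⟩
          by_cases huS : u ∈ S <;> by_cases hvS : v ∈ S
          · simp only [huS, hvS, if_true]; exact Or.inl rfl
          · simp only [huS, hvS, if_true, if_false, aux u v huS hv hvS huv]
            exact Or.inr (Or.inr ⟨0, rfl⟩)
          · simp only [huS, hvS, if_true, if_false, aux v u hvS hu huS huv.symm]
            exact Or.inr (Or.inl ⟨0, rfl⟩)
          · simp only [huS, hvS, if_false]
            exact (h'.near u (mem_sdiff.2 ⟨hu, huS⟩) v (mem_sdiff.2 ⟨hv, hvS⟩) huv).cons 0
        · intro v hv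
          simp [hv]
        · intro l
          cases l with
          | nil => rw [hfil]; omega
          | cons a l =>
            refine le_trans (card_le_card ?_) (h'.fib l)
            intro v hv
            rw [mem_filter] at hv
            by_cases hvS : v ∈ S
            · simp [hvS] at hv
            · simp only [hvS, if_false, List.cons.injEq] at hv
              exact mem_filter.2 ⟨mem_sdiff.2 ⟨hv.1, hvS⟩, hv.2.2⟩
        · intro v hv a ha
          by_cases hvS : v ∈ S
          · simp [hvS] at ha
          · simp only [hvS, if_false, List.mem_cons] at ha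
            rcases ha with rfl | ha
            · omega
            · exact h'.lab v (mem_sdiff.2 ⟨hv, hvS⟩) a ha
        · intro v hv a l h
          by_cases hvS : v ∈ S
          · simp [hvS] at h
          · simp only [hvS, if_false, List.cons.injEq] at h
            omega
        · left
          rw [hfil]
    · push Not at hsmall
      obtain ⟨X, A, hX, hAX, hcl, hA, hB⟩ := hsep S
      set W1 := W ∩ (A ∪ X) with hW1
      set W2 := W \ A with hW2
      set S1 := (S ∩ A) ∪ (W ∩ X) with hS1
      set S2 := (S \ (A ∪ X)) ∪ (W ∩ X) with hS2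
      have hWX : (W ∩ X).card ≤ K := (card_le_card inter_subset_right).trans hX
      have hsplit : S.card ≤ (S ∩ A).card + (S \ (A ∪ X)).card + K := by
        have : S ⊆ ((S ∩ A) ∪ (S \ (A ∪ X))) ∪ X := by
          intro v hv
          by_cases h1 : v ∈ A <;> by_cases h2 : v ∈ X <;> simp [hv, h1, h2]
        refine (card_le_card this).trans ((card_union_le _ _).trans ?_)
        exact Nat.add_le_add (card_union_le _ _) hX
      have hsum : (S ∩ A).card + (S \ (A ∪ X)).card ≤ S.card := by
        rw [← card_union_of_disjoint]
        · exact card_le_card (union_subset inter_subset_left sdiff_subset)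
        · rw [disjoint_left]
          intro v h1 h2
          exact (mem_sdiff.1 h2).2 (mem_union_left _ (mem_inter.1 h1).2)
      have c1 : (S ∩ A).card ≤ S1.card := card_le_card subset_union_left
      have c2 : (S \ (A ∪ X)).card ≤ S2.card := card_le_card subset_union_left
      have c3 : S1.card ≤ (S ∩ A).card + K := (card_union_le _ _).trans (by omega)
      have c4 : S2.card ≤ (S \ (A ∪ X)).card + K := (card_union_le _ _).trans (by omega)
      have hS1W : S1 ⊆ W1 := by
        intro v hv
        rcases mem_union.1 hv with h | h
        · exact mem_inter.2 ⟨hSW (mem_inter.1 h).1, mem_union_left _ (mem_inter.1 h).2⟩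
        · exact mem_inter.2 ⟨(mem_inter.1 h).1, mem_union_right _ (mem_inter.1 h).2⟩
      have hS2W : S2 ⊆ W2 := by
        intro v hv
        rcases mem_union.1 hv with h | h
        · exact mem_sdiff.2 ⟨hSW (mem_sdiff.1 h).1,
            fun h' => (mem_sdiff.1 h).2 (mem_union_left _ h')⟩
        · exact mem_sdiff.2 ⟨(mem_inter.1 h).1,
            fun h' => disjoint_left.1 hAX h' (mem_inter.1 h).2⟩
      obtain ⟨a0, ha0⟩ : (S ∩ A).Nonempty := card_pos.1 (by omega)
      obtain ⟨b0, hb0⟩ : (S \ (A ∪ X)).Nonempty := card_pos.1 (by omega)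
      have hlt1 : W1.card < n := by
        rw [← hn]
        refine card_lt_card ⟨inter_subset_left, fun h => ?_⟩
        exact (mem_sdiff.1 hb0).2 (mem_inter.1 (h (hSW (mem_sdiff.1 hb0).1))).2
      have hlt2 : W2.card < n := by
        rw [← hn]
        refine card_lt_card ⟨sdiff_subset, fun h => ?_⟩
        exact (mem_sdiff.1 (h (hSW (mem_inter.1 ha0).1))).2 (mem_inter.1 ha0).2
      obtain ⟨π1, e1, h1⟩ := ih _ hlt1 W1 S1 rfl hS1W ⟨a0, mem_union_left _ ha0⟩ (by omega)
      obtain ⟨π2, e2, h2⟩ := ih _ hlt2 W2 S2 rfl hS2W ⟨b0, mem_union_left _ hb0⟩ (by omega)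
      have mem1 : ∀ v ∈ W, v ∈ A → v ∈ W1 := fun v hv hA =>
        mem_inter.2 ⟨hv, mem_union_left _ hA⟩
      have mem2 : ∀ v ∈ W, v ∉ A → v ∈ W2 := fun v hv hA => mem_sdiff.2 ⟨hv, hA⟩
      have hr : (W.filter (fun v => (if v ∈ A then π1 v else sh e1 (π2 v)) = [])).card ≤
          (W1.filter (fun v => π1 v = [])).card + (W2.filter (fun v => π2 v = [])).card := by
        refine le_trans (card_le_card ?_) (card_union_le _ _)
        intro v hv
        rw [mem_filter] at hv
        by_cases hvA : v ∈ A
        · simp only [hvA, if_true] at hv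
          exact mem_union_left _ (mem_filter.2 ⟨mem1 v hv.1 hvA, hv.2⟩)
        · simp only [hvA, if_false] at hv
          refine mem_union_right _ (mem_filter.2 ⟨mem2 v hv.1 hvA, ?_⟩)
          have := hv.2
          cases h : π2 v with
          | nil => rfl
          | cons a l => rw [h] at this; simp [sh] at this
      have i1 := h1.inv
      have i2 := h2.inv
      have hinv : (W.filter (fun v => (if v ∈ A then π1 v else sh e1 (π2 v)) = [])).card
          + (e1 + e2) + 4 * K ≤ 2 * S.card := by omega
      refine ⟨fun v => if v ∈ A then π1 v else sh e1 (π2 v), e1 + e2, ⟨?_, ?_, ?_, ?_, ?_, ?_⟩⟩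
      · intro u hu v hv huv
        have aux : ∀ a b, a ∈ A → b ∈ W → b ∉ A → G.Adj a b →
            sh e1 (π2 b) = π1 b ∧ b ∈ W1 := by
          intro a b ha hb hbA hab
          have hbX : b ∈ W ∩ X := mem_inter.2 ⟨hb, (hcl a b hab ha).resolve_left hbA⟩
          rw [h1.root b (mem_union_right _ hbX), h2.root b (mem_union_right _ hbX)]
          exact ⟨rfl, hS1W (mem_union_right _ hbX)⟩
        by_cases huA : u ∈ A <;> by_cases hvA : v ∈ A
        · simp only [huA, hvA, if_true]
          exact h1.near u (mem1 u hu huA) v (mem1 v hv hvA) huv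
        · obtain ⟨q1, q2⟩ := aux u v huA hv hvA huv
          simp only [huA, hvA, if_true, if_false, q1]
          exact h1.near u (mem1 u hu huA) v q2 huv
        · obtain ⟨q1, q2⟩ := aux v u hvA hu huA huv.symm
          simp only [huA, hvA, if_true, if_false, q1]
          exact h1.near u q2 v (mem1 v hv hvA) huv
        · simp only [huA, hvA, if_false]
          exact (h2.near u (mem2 u hu huA) v (mem2 v hv hvA) huv).sh e1
      · intro v hv
        by_cases hvA : v ∈ A
        · simp only [hvA, if_true]
          exact h1.root v (mem_union_left _ (mem_inter.2 ⟨hv, hvA⟩))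
        · simp only [hvA, if_false]
          have : π2 v = [] := by
            apply h2.root
            by_cases hvX : v ∈ X
            · exact mem_union_right _ (mem_inter.2 ⟨hSW hv, hvX⟩)
            · exact mem_union_left _ (mem_sdiff.2 ⟨hv, by simp [hvA, hvX]⟩)
          rw [this]; rfl
      · intro l
        cases l with
        | nil => omega
        | cons a l =>
          by_cases hae : a < e1
          · refine le_trans (card_le_card ?_) (h1.fib (a :: l))
            intro v hv
            rw [mem_filter] at hv
            by_cases hvA : v ∈ A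
            · simp only [hvA, if_true] at hv
              exact mem_filter.2 ⟨mem1 v hv.1 hvA, hv.2⟩
            · simp only [hvA, if_false] at hv
              have := hv.2
              cases h : π2 v with
              | nil => rw [h] at this; simp [sh] at this
              | cons b m =>
                rw [h] at this
                simp only [sh, List.cons.injEq] at this
                omega
          · refine le_trans (card_le_card ?_) (h2.fib ((a - e1) :: l))
            intro v hv
            rw [mem_filter] at hv
            by_cases hvA : v ∈ A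
            · simp only [hvA, if_true] at hv
              exact absurd (h1.head v (mem1 v hv.1 hvA) a l hv.2) hae
            · simp only [hvA, if_false] at hv
              refine mem_filter.2 ⟨mem2 v hv.1 hvA, ?_⟩
              have := hv.2
              cases h : π2 v with
              | nil => rw [h] at this; simp [sh] at this
              | cons b m =>
                rw [h] at this
                simp only [sh, List.cons.injEq] at this
                rw [← this.1, ← this.2]
                simp
      · intro v hv a ha
        by_cases hvA : v ∈ A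
        · simp only [hvA, if_true] at ha
          exact h1.lab v (mem1 v hv hvA) a ha
        · simp only [hvA, if_false] at ha
          cases h : π2 v with
          | nil => rw [h] at ha; simp [sh] at ha
          | cons b m =>
            rw [h] at ha
            simp only [sh, List.mem_cons] at ha
            rcases ha with rfl | ha
            · have := h2.head v (mem2 v hv hvA) b m h
              omega
            · exact h2.lab v (mem2 v hv hvA) a (by rw [h]; exact List.mem_cons_of_mem _ ha)
      · intro v hv a l h
        by_cases hvA : v ∈ A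
        · simp only [hvA, if_true] at h
          have := h1.head v (mem1 v hv hvA) a l h
          omega
        · simp only [hvA, if_false] at h
          cases h' : π2 v with
          | nil => rw [h'] at h; simp [sh] at h
          | cons b m =>
            rw [h'] at h
            simp only [sh, List.cons.injEq] at h
            have := h2.head v (mem2 v hv hvA) b m h'
            omega
      · exact Or.inr hinv

/-- A placement of all vertices on words with bounded fibres and bounded letters. -/
theorem place {V : Type} [Fintype V] [DecidableEq V] (G : SimpleGraph V) [DecidableRel G.Adj]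
    (K ℓ : ℕ) (hK : 0 < K) (hdeg : ∀ v, (G.neighborFinset v).card ≤ ℓ)
    (hsep : ∀ S : Finset V, ∃ X A : Finset V, X.card ≤ K ∧ Disjoint A X ∧
      (∀ u v, G.Adj u v → u ∈ A → v ∈ A ∨ v ∈ X) ∧
      4 * (S ∩ A).card ≤ 3 * S.card ∧ 4 * (S \ (A ∪ X)).card ≤ 3 * S.card) :
    ∃ π : V → List ℕ, (∀ u v, G.Adj u v → Near (π u) (π v)) ∧
      (∀ l, (univ.filter (fun v => π v = l)).card ≤ 2 * (24 * K * ℓ + 1)) ∧
      (∀ v, ∀ a ∈ π v, a < 2 * (24 * K * ℓ + 1)) := by
  rcases isEmpty_or_nonempty V with hV | ⟨⟨v0⟩⟩
  · exact ⟨fun _ => [], fun u => hV.elim u, fun l => by simp, fun u => hV.elim u⟩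
  · obtain ⟨π, e, h⟩ := place_aux G K ℓ hK hdeg hsep _ univ {v0} rfl (subset_univ _)
      (singleton_nonempty _) (by simp)
    exact ⟨π, fun u v => h.near u (mem_univ _) v (mem_univ _), h.fib, fun v => h.lab v (mem_univ _)⟩

end Pool.Agent.P.MP_993692_co
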