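import Mathlib
import Pool.Agent.P.MP_993692_co.Place

set_option autoImplicit false

namespace Pool.Agent.P.MP_993692_co

open Finset

/-- The Gaussian integer `2 m + i`. -/
def gp (m : ℕ) : GaussianInt := ⟨2 * m, 1⟩

/-- Its norm. -/
def gq (m : ℕ) : ℕ := (2 * m) ^ 2 + 1

theorem gp_mul_star (m : ℕ) : gp m * star (gp m) = (gq m : GaussianInt) := by
  ext
  · simp [gp, gq, pow_two]
  · simp [gp, gq, pow_two]

theorem gp_cop_star (m : ℕ) : IsCoprime (gp m) (star (gp m)) := by
  refine ⟨star (gp m) + ⟨0, 2 * (m : ℤ) ^ 2⟩, ⟨0, -(2 * (m : ℤ) ^ 2)⟩, ?_⟩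
  ext
  · simp [gp]
    ring
  · simp [gp]
    ring

theorem gp_ne_zero (m : ℕ) : gp m ≠ 0 := by
  intro h
  have := congrArg Zsqrtd.im h
  simp [gp] at this

theorem gp_not_unit {m : ℕ} (hm : 0 < m) : ¬ IsUnit (gp m) := by
  intro h
  rw [Zsqrtd.isUnit_iff_norm_isUnit, Int.isUnit_iff] at h
  have : (gp m).norm = (2 * m) ^ 2 + 1 := by
    simp [gp, Zsqrtd.norm_def]
    ring
  rw [this] at h
  have h1 : (1 : ℤ) ≤ m := by exact_mod_cast hm
  rcases h with h | h <;> nlinarith

theorem gq_cop {m n : ℕ} (h : Nat.Coprime (gq m) (gq n)) :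
    IsCoprime (gp m) (gp n) ∧ IsCoprime (gp m) (star (gp n)) := by
  have h1 : IsCoprime ((gq m : ℕ) : GaussianInt) ((gq n : ℕ) : GaussianInt) := by
    have := (Nat.isCoprime_iff_coprime.2 h).map (Int.castRingHom GaussianInt)
    simpa using this
  rw [← gp_mul_star, ← gp_mul_star] at h1
  exact ⟨h1.of_mul_left_left.of_mul_right_left, h1.of_mul_left_left.of_mul_right_right⟩

section
variable {ι : Type} [Fintype ι] [DecidableEq ι] (m : ι → ℕ)

/-- Product of powers of the chosen Gaussian integers. -/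
def gN (a : ι → ℕ) : GaussianInt := ∏ i, gp (m i) ^ a i

omit [DecidableEq ι] in
theorem star_gN (a : ι → ℕ) : star (gN m a) = ∏ i, star (gp (m i)) ^ a i := by
  simp [gN, star_prod]

omit [DecidableEq ι] in
theorem gN_add (a b : ι → ℕ) : gN m (a + b) = gN m a * gN m b := by
  simp [gN, pow_add, prod_mul_distrib]

omit [DecidableEq ι] in
theorem gN_ne_zero (a : ι → ℕ) : gN m a ≠ 0 :=
  prod_ne_zero_iff.2 fun _ _ => pow_ne_zero _ (gp_ne_zero _)

omit [DecidableEq ι] in
theorem gN_mul_star (a : ι → ℕ) :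
    gN m a * star (gN m a) = ((∏ i, gq (m i) ^ a i : ℕ) : GaussianInt) := by
  rw [star_gN, gN, ← prod_mul_distrib]
  simp only [← mul_pow, gp_mul_star]
  simp

variable (hc : ∀ i j, i ≠ j → Nat.Coprime (gq (m i)) (gq (m j)))
include hc

theorem gp_cop_starN (j : ι) (n : ℕ) (a : ι → ℕ) : IsCoprime (gp (m j) ^ n) (star (gN m a)) := by
  rw [star_gN]
  refine IsCoprime.pow_left (IsCoprime.prod_right fun i _ => IsCoprime.pow_right ?_)
  by_cases h : j = i
  · subst h
    exact gp_cop_star _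
  · exact (gq_cop (hc j i h)).2

theorem gN_indep (hm : ∀ i, 0 < m i) (a b : ι → ℕ)
    (h : gN m a * star (gN m b) = gN m b * star (gN m a)) (j : ι) : a j ≤ b j := by
  have h1 : gp (m j) ^ a j ∣ gN m b * star (gN m a) := by
    rw [← h]
    exact Dvd.dvd.mul_right (dvd_prod_of_mem (fun i => gp (m i) ^ a i) (mem_univ j)) _
  have h2 := (gp_cop_starN m hc j (a j) a).dvd_of_dvd_mul_right h1
  rw [gN, ← mul_prod_erase _ _ (mem_univ j)] at h2
  have h3 : IsCoprime (gp (m j) ^ a j) (∏ i ∈ univ.erase j, gp (m i) ^ b i) :=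
    IsCoprime.pow_left (IsCoprime.prod_right fun i hi =>
      IsCoprime.pow_right (gq_cop (hc j i (ne_of_mem_erase hi).symm)).1)
  exact (pow_dvd_pow_iff (gp_ne_zero _) (gp_not_unit (hm j))).1 (h3.dvd_of_dvd_mul_right h2)

theorem gN_dvd (a : ι → ℕ) (n : ℤ) (z : GaussianInt)
    (h : (n : GaussianInt) * star (gN m a) = gN m a * z) (j : ι) :
    ((gq (m j) ^ a j : ℕ) : ℤ) ∣ n := by
  have h1 : gp (m j) ^ a j ∣ (n : GaussianInt) * star (gN m a) := by
    rw [h]
    exact Dvd.dvd.mul_right (dvd_prod_of_mem (fun i => gp (m i) ^ a i) (mem_univ j)) _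
  have h2 := (gp_cop_starN m hc j (a j) a).dvd_of_dvd_mul_right h1
  have h3 : star (gp (m j)) ^ a j ∣ (n : GaussianInt) := by
    obtain ⟨y, hy⟩ := h2
    refine ⟨star y, ?_⟩
    have := congrArg star hy
    simpa [mul_comm] using this
  have h4 := ((gp_cop_star (m j)).pow (m := a j) (n := a j)).mul_dvd h2 h3
  rw [← mul_pow, gp_mul_star] at h4
  rw [← Zsqrtd.intCast_dvd_intCast (d := -1)]
  simpa using h4

end

theorem exists_round (w : ℂ) : ∃ z : GaussianInt, ‖w - GaussianInt.toComplex z‖ ≤ 1 := by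
  refine ⟨⟨round w.re, round w.im⟩, (Complex.norm_le_abs_re_add_abs_im _).trans ?_⟩
  have h1 := abs_sub_round w.re
  have h2 := abs_sub_round w.im
  simp only [GaussianInt.toComplex_def', Complex.sub_re, Complex.sub_im, Complex.add_re,
    Complex.add_im, Complex.mul_re, Complex.mul_im, Complex.intCast_re, Complex.intCast_im,
    Complex.I_re, Complex.I_im]
  simp only [mul_zero, mul_one, sub_zero, add_zero, zero_add]
  linarith

end Pool.Agent.P.MP_993692_co
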