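import Mathlib
import Pool.Agent.P.MP_993692_co.Gauss

set_option autoImplicit false

namespace Pool.Agent.P.MP_993692_co

open Finset

/-- The unimodular number attached to an exponent vector. -/
noncomputable def gw {ι : Type} [Fintype ι] (m : ι → ℕ) (a : ι → ℕ) : ℂ :=
  GaussianInt.toComplex (gN m a) / GaussianInt.toComplex (star (gN m a))

theorem toC_ne {z : GaussianInt} (h : z ≠ 0) : GaussianInt.toComplex z ≠ 0 := by
  simpa using h

section
variable {ι : Type} [Fintype ι] (m : ι → ℕ)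

theorem sN_ne (a : ι → ℕ) : GaussianInt.toComplex (star (gN m a)) ≠ 0 :=
  toC_ne (by simpa using gN_ne_zero m a)

theorem gw_norm (a : ι → ℕ) : ‖gw m a‖ = 1 := by
  rw [gw, norm_div, GaussianInt.toComplex_star, Complex.norm_conj]
  exact div_self (by simpa using gN_ne_zero m a)

theorem gw_add (a b : ι → ℕ) : gw m (a + b) = gw m a * gw m b := by
  simp only [gw, gN_add, star_mul', map_mul]
  rw [div_mul_div_comm]

theorem gw_mul_sq (a : ι → ℕ) :
    gw m a * GaussianInt.toComplex (star (gN m a) ^ 2) = ((∏ i, gq (m i) ^ a i : ℕ) : ℂ) := by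
  have h := congrArg GaussianInt.toComplex (gN_mul_star m a)
  rw [map_natCast, map_mul] at h
  rw [← h, gw, map_pow]
  have := sN_ne m a
  field_simp

theorem gw_mul_Q (e : ι → ℕ) (he : ∀ i, e i ≤ 1) :
    ∃ y : GaussianInt, gw m e * ((∏ i, gq (m i) : ℕ) : ℂ) = GaussianInt.toComplex y := by
  obtain ⟨k, hk⟩ : (∏ i, gq (m i) ^ e i) ∣ ∏ i, gq (m i) :=
    prod_dvd_prod_of_dvd _ _ fun i _ => by
      simpa using pow_dvd_pow (gq (m i)) (he i)
  refine ⟨gN m e ^ 2 * k, ?_⟩
  have h := congrArg GaussianInt.toComplex (gN_mul_star m e)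
  rw [map_natCast, map_mul] at h
  rw [hk, Nat.cast_mul, ← h, gw, map_mul, map_pow, map_natCast]
  have := sN_ne m e
  field_simp

end

theorem near_min {q : ℕ} {l l' : List ℕ} (h : Near l l') :
    l.length ≤ min l.length l'.length + 1 ∧ l'.length ≤ min l.length l'.length + 1 ∧
      Nat.ofDigits q l ≡ Nat.ofDigits q l' [MOD q ^ min l.length l'.length] := by
  rcases h with h | ⟨a, h⟩ | ⟨a, h⟩
  · subst h
    exact ⟨by omega, by omega, Nat.ModEq.refl _⟩
  · subst h
    have e : min (l' ++ [a]).length l'.length = l'.length := by simp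
    rw [e, Nat.ofDigits_append]
    exact ⟨by simp, by simp, by simp [Nat.ModEq]⟩
  · subst h
    have e : min l.length (l ++ [a]).length = l.length := by simp
    rw [e, Nat.ofDigits_append]
    exact ⟨by simp, by simp, by simp [Nat.ModEq]⟩

/-- The finite box of Gaussian integers. -/
abbrev Box (M : ℕ) : Type := ((Icc (-(M : ℤ)) M ×ˢ Icc (-(M : ℤ)) M : Finset (ℤ × ℤ)) : Type)

theorem box_of_norm (M : ℕ) (y : GaussianInt) (h : ‖GaussianInt.toComplex y‖ ≤ M) :
    ∃ b : Box M, y = ⟨b.1.1, b.1.2⟩ := by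
  have h1 : |(y.re : ℝ)| ≤ M := by
    have := (Complex.abs_re_le_norm (GaussianInt.toComplex y)).trans h
    rwa [← GaussianInt.intCast_re] at this
  have h2 : |(y.im : ℝ)| ≤ M := by
    have := (Complex.abs_im_le_norm (GaussianInt.toComplex y)).trans h
    rwa [← GaussianInt.intCast_im] at this
  have h3 : |y.re| ≤ (M : ℤ) := by exact_mod_cast h1
  have h4 : |y.im| ≤ (M : ℤ) := by exact_mod_cast h2
  exact ⟨⟨(y.re, y.im), mem_product.2 ⟨mem_Icc.2 (abs_le.1 h3), mem_Icc.2 (abs_le.1 h4)⟩⟩, rfl⟩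

theorem arith {ι : Type} [Fintype ι] [DecidableEq ι] (c : ℕ) (m : ι → ℕ)
    (hc : ∀ i j, i ≠ j → Nat.Coprime (gq (m i)) (gq (m j))) (hm : ∀ i, 0 < m i)
    (hcq : ∀ i, c ≤ gq (m i)) {V : Type} (w : V → ι → List ℕ) (hw : ∀ v i, ∀ a ∈ w v i, a < c) :
    ∃ (ω t : V → ℂ) (A B C : (ι → Fin 2) × (ι → Fin 2) × Box (2 * ∏ i, gq (m i)) → ℂ),
      (∀ v, ‖ω v‖ = 1) ∧ (∀ u v, ω u = ω v → t u = t v → w u = w v) ∧
      ∀ u v, (∀ i, Near (w u i) (w v i)) → ∃ s, ∃ μ : ℂ, ‖μ‖ = 1 ∧ ω u = μ * A s ∧
        ω v = μ * B s ∧ t u - t v = μ * C s := by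
  have hq1 : ∀ i, 1 < gq (m i) := by
    intro i
    have := hm i
    unfold gq
    nlinarith
  set Q : ℕ := ∏ i, gq (m i) with hQ
  have hQ0 : 0 < Q := prod_pos fun i _ => by have := hq1 i; omega
  let a : V → ι → ℕ := fun v i => (w v i).length
  have hcrt : ∀ v, ∃ n : ℕ, ∀ i, n ≡ Nat.ofDigits (gq (m i)) (w v i) [MOD gq (m i) ^ a v i] := by
    intro v
    obtain ⟨n, hn⟩ := Nat.chineseRemainderOfFinset (fun i => Nat.ofDigits (gq (m i)) (w v i))
      (fun i => gq (m i) ^ a v i) univ
      (fun i _ => pow_ne_zero _ (by have := hq1 i; omega))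
      (fun i _ j _ hij => Nat.Coprime.pow _ _ (hc i j hij))
    exact ⟨n, fun i => hn i (mem_univ i)⟩
  choose n hn using hcrt
  choose z hz using fun v => exists_round ((n v : ℂ) / gw m (a v))
  have hw0 : ∀ e, gw m e ≠ 0 := by
    intro e h
    have := gw_norm m e
    rw [h] at this
    simp at this
  have ht : ∀ v, ‖(n v : ℂ) - gw m (a v) * GaussianInt.toComplex (z v)‖ ≤ 1 := by
    intro v
    have e : (n v : ℂ) - gw m (a v) * GaussianInt.toComplex (z v) =
        gw m (a v) * ((n v : ℂ) / gw m (a v) - GaussianInt.toComplex (z v)) := by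
      have := hw0 (a v)
      field_simp
    rw [e, norm_mul, gw_norm, one_mul]
    exact hz v
  refine ⟨fun v => gw m (a v), fun v => (n v : ℂ) - gw m (a v) * GaussianInt.toComplex (z v),
    fun s => gw m (fun i => (s.1 i : ℕ)), fun s => gw m (fun i => (s.2.1 i : ℕ)),
    fun s => GaussianInt.toComplex ⟨s.2.2.1.1, s.2.2.1.2⟩ / (Q : ℂ), fun v => gw_norm m _, ?_, ?_⟩
  · intro u v h1 h2
    have h3 : gN m (a u) * star (gN m (a v)) = gN m (a v) * star (gN m (a u)) := by
      apply GaussianInt.toComplex_injective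
      simp only [gw] at h1
      rw [div_eq_div_iff (sN_ne m _) (sN_ne m _)] at h1
      rw [map_mul, map_mul, h1]
    have h4 : a u = a v := funext fun j =>
      le_antisymm (gN_indep m hc hm _ _ h3 j) (gN_indep m hc hm _ _ h3.symm j)
    have h5 : (((n u : ℤ) - n v : ℤ) : GaussianInt) * star (gN m (a u)) =
        gN m (a u) * (z u - z v) := by
      apply GaussianInt.toComplex_injective
      simp only [← h4, gw] at h2
      have h6 := sN_ne m (a u)
      rw [map_mul, map_mul, map_intCast, map_sub]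
      push_cast
      field_simp at h2
      linear_combination h2
    funext j
    have h7 := gN_dvd m hc (a u) _ _ h5 j
    have h8 : n v ≡ n u [MOD gq (m j) ^ a u j] := (Nat.modEq_iff_dvd).2 h7
    have h9 := hn v j
    rw [← h4] at h9
    have h10 := (h9.symm.trans h8).trans (hn u j)
    have hl : (w u j).length = (w v j).length := congrFun h4 j
    have b1 : ∀ x ∈ w u j, x < gq (m j) := fun x hx => (hw u j x hx).trans_le (hcq j)
    have b2 : ∀ x ∈ w v j, x < gq (m j) := fun x hx => (hw v j x hx).trans_le (hcq j)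
    have c1 := Nat.ofDigits_lt_base_pow_length (hq1 j) b1
    have c2 := Nat.ofDigits_lt_base_pow_length (hq1 j) b2
    rw [← hl] at c2
    exact Nat.ofDigits_inj_of_len_eq (hq1 j) hl b1 b2 (Nat.ModEq.eq_of_lt_of_lt h10 c2 c1).symm
  · intro u v hnear
    let b : ι → ℕ := fun i => min (a u i) (a v i)
    have hb := fun i => near_min (q := gq (m i)) (hnear i)
    let eu : ι → Fin 2 := fun i => ⟨a u i - b i, by have := (hb i).1; simp only [a, b]; omega⟩
    let ev : ι → Fin 2 := fun i => ⟨a v i - b i, by have := (hb i).2.1; simp only [a, b]; omega⟩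
    have hu : a u = b + fun i => (eu i : ℕ) := funext fun i => by
      simp only [Pi.add_apply, eu, b]; omega
    have hv : a v = b + fun i => (ev i : ℕ) := funext fun i => by
      simp only [Pi.add_apply, ev, b]; omega
    have hd : ((∏ i, gq (m i) ^ b i : ℕ) : ℤ) ∣ (n u : ℤ) - n v := by
      push_cast
      refine Finset.prod_dvd_of_coprime ?_ ?_
      · intro i _ j _ hij
        exact IsCoprime.pow (Nat.isCoprime_iff_coprime.2 (hc i j hij))
      · intro i _
        have k1 := (hn u i).of_dvd (pow_dvd_pow (gq (m i)) (min_le_left (a u i) (a v i)))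
        have k2 := (hn v i).of_dvd (pow_dvd_pow (gq (m i)) (min_le_right (a u i) (a v i)))
        have k3 := (k2.trans (hb i).2.2.symm).trans k1.symm
        have := (Nat.modEq_iff_dvd).1 k3
        simpa using this
    obtain ⟨k, hk⟩ := hd
    obtain ⟨yu, hyu⟩ := gw_mul_Q m (fun i => (eu i : ℕ)) (fun i => by have := (eu i).2; omega)
    obtain ⟨yv, hyv⟩ := gw_mul_Q m (fun i => (ev i : ℕ)) (fun i => by have := (ev i).2; omega)
    have hk' : (n u : ℂ) - n v = ((∏ i, gq (m i) ^ b i : ℕ) : ℂ) * (k : ℂ) := by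
      exact_mod_cast congrArg (fun x : ℤ => (x : ℂ)) hk
    rw [← gw_mul_sq] at hk'
    have hu' : gw m (a u) = gw m b * gw m (fun i => (eu i : ℕ)) := by rw [← gw_add, ← hu]
    have hv' : gw m (a v) = gw m b * gw m (fun i => (ev i : ℕ)) := by rw [← gw_add, ← hv]
    set y : GaussianInt := star (gN m b) ^ 2 * k * Q - yu * z u + yv * z v with hy
    have key : (((n u : ℂ) - gw m (a u) * GaussianInt.toComplex (z u)) -
        ((n v : ℂ) - gw m (a v) * GaussianInt.toComplex (z v))) * (Q : ℂ) =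
        gw m b * GaussianInt.toComplex y := by
      rw [hy, map_add, map_sub, map_mul, map_mul, map_mul, map_mul, map_intCast, map_natCast,
        ← hyu, ← hyv, hu', hv']
      linear_combination (Q : ℂ) * hk'
    have hyn : ‖GaussianInt.toComplex y‖ ≤ ((2 * Q : ℕ) : ℝ) := by
      have k1 := congrArg norm key
      rw [norm_mul, norm_mul, gw_norm, one_mul, Complex.norm_natCast] at k1
      rw [← k1]
      push_cast
      refine mul_le_mul_of_nonneg_right ((norm_sub_le _ _).trans ?_) (Nat.cast_nonneg _)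
      linarith [ht u, ht v]
    obtain ⟨bx, hbx⟩ := box_of_norm _ y hyn
    refine ⟨(eu, ev, bx), gw m b, gw_norm m b, hu', hv', ?_⟩
    have hQ' : (Q : ℂ) ≠ 0 := by exact_mod_cast hQ0.ne'
    simp only [← hbx]
    rw [← mul_div_assoc, eq_div_iff hQ']
    exact key

end Pool.Agent.P.MP_993692_co
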