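import Mathlib
import Pool.Agent.P.MP_993692_co.Place

set_option autoImplicit false

namespace Pool.Agent.P.MP_993692_co

open Polynomial

theorem exists_unimodular_transcendental : ∃ α : ℂ, ‖α‖ = 1 ∧ Transcendental ℚ α := by
  by_contra h
  push Not at h
  let g : ℝ → ℂ := fun t => ⟨t, Real.sqrt (1 - t ^ 2)⟩
  have hg : Set.MapsTo g (Set.Icc (0 : ℝ) 1) {x : ℂ | IsAlgebraic ℚ x} := by
    intro t ht
    have h1 : ‖g t‖ = 1 := by
      have h2 : 0 ≤ 1 - t ^ 2 := by nlinarith [ht.1, ht.2]
      rw [Complex.norm_eq_sqrt_sq_add_sq]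
      simp only [g]
      rw [Real.sq_sqrt h2]
      simp
    have := h _ h1
    unfold Transcendental at this
    simpa using this
  have hinj : Set.InjOn g (Set.Icc (0 : ℝ) 1) := fun a _ b _ hab => congrArg Complex.re hab
  have := hg.countable_of_injOn hinj (Algebraic.countable ℚ ℂ)
  rw [Cardinal.Real.Icc_countable_iff] at this
  norm_num at this

/-- The isometry of the plane attached to a word. -/
noncomputable def F (α : ℂ) : List ℕ → ℂ → ℂ
  | [], z => z
  | a :: l, z => α * F α l z + a

/-- The translation part as a polynomial. -/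
noncomputable def pl : List ℕ → ℚ[X]
  | [] => 0
  | a :: l => X * pl l + C (a : ℚ)

theorem F_append (α : ℂ) (l : List ℕ) (a : ℕ) (z : ℂ) :
    F α (l ++ [a]) z = F α l (α * z + a) := by
  induction l with
  | nil => rfl
  | cons b l ih => simp only [List.cons_append, F, ih]

theorem F_eq (α : ℂ) (l : List ℕ) (z : ℂ) : F α l z = α ^ l.length * z + aeval α (pl l) := by
  induction l with
  | nil => simp [F, pl]
  | cons b l ih =>
    simp only [F, pl, ih, List.length_cons, map_add, map_mul, aeval_X, aeval_C]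
    simp
    ring

theorem pl_inj : ∀ l m : List ℕ, l.length = m.length → pl l = pl m → l = m := by
  intro l
  induction l with
  | nil => intro m h _; exact (List.length_eq_zero_iff.1 h.symm).symm
  | cons a l ih =>
    intro m h hp
    cases m with
    | nil => simp at h
    | cons b m =>
      simp only [pl] at hp
      have h0 := congrArg (fun p => p.coeff 0) hp
      simp at h0
      subst h0
      have h1 : X * pl l = X * pl m := add_right_cancel hp
      have h2 := mul_left_cancel₀ X_ne_zero h1
      rw [ih m (by simpa using h) h2]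

theorem F_dist {α : ℂ} (hα : ‖α‖ = 1) (l : List ℕ) (z w : ℂ) :
    dist (F α l z) (F α l w) = dist z w := by
  rw [F_eq, F_eq, dist_add_right, dist_eq_norm, dist_eq_norm, ← mul_sub, norm_mul, norm_pow, hα]
  simp

theorem dense_ne_zero {E : Type} [NormedAddCommGroup E] [NormedSpace ℝ E] {Y : Type}
    [NormedAddCommGroup Y] [NormedSpace ℝ Y] (f : E → Y) (hf : AnalyticOnNhd ℝ f Set.univ)
    (h : ∃ x, f x ≠ 0) : Dense {x | f x ≠ 0} := by
  intro x0
  by_contra hx
  have h1 : f =ᶠ[nhds x0] 0 := by
    have h2 : (closure {x | f x ≠ 0})ᶜ ∈ nhds x0 := isClosed_closure.isOpen_compl.mem_nhds hx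
    filter_upwards [h2] with y hy
    by_contra hy0
    exact hy (subset_closure hy0)
  obtain ⟨x, hx⟩ := h
  exact hx (hf.eqOn_zero_of_preconnected_of_eventuallyEq_zero isPreconnected_univ
    (Set.mem_univ x0) h1 (Set.mem_univ x))

theorem draw {V γ : Type} [Fintype V] [Fintype γ] (G : SimpleGraph V) (c : ℕ)
    (π : V → List ℕ) (col : V → γ) (hinj : ∀ u v, π u = π v → col u = col v → u = v)
    (hcol : ∀ u v, G.Adj u v → col u ≠ col v)
    (hnear : ∀ u v, G.Adj u v → Near (π u) (π v)) (hlab : ∀ v, ∀ a ∈ π v, a < c) :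
    ∃ p : V → ℂ, Function.Injective p ∧
      (∀ u v w, G.Adj u v → w ≠ u → w ≠ v → p w ∉ segment ℝ (p u) (p v)) ∧
      {d : ℝ | ∃ u v, G.Adj u v ∧ dist (p u) (p v) = d}.ncard ≤
        Fintype.card (γ × γ) + Fintype.card (γ × γ × Fin c) := by
  classical
  obtain ⟨α, hα, htr⟩ := exists_unimodular_transcendental
  have hα0 : α ≠ 0 := by
    rintro rfl
    simp at hα
  let P : V → (γ → ℂ) → ℂ := fun v x => α ^ (π v).length * x (col v) + aeval α (pl (π v))
  have hPan : ∀ v, AnalyticOnNhd ℝ (P v) Set.univ := by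
    intro v x _
    have h1 : AnalyticAt ℝ (fun x : γ → ℂ => x (col v)) x :=
      (ContinuousLinearMap.proj (R := ℝ) (φ := fun _ : γ => ℂ) (col v)).analyticAt x
    exact (analyticAt_const.mul h1).add analyticAt_const
  have hne : ∀ u v, u ≠ v → ∃ x, P u x - P v x ≠ 0 := by
    intro u v huv
    by_contra h
    push Not at h
    have h0 := h 0
    have h1 := h (Pi.single (col u) 1)
    simp only [P, Pi.zero_apply, mul_zero, zero_add, sub_eq_zero] at h0
    simp only [P, Pi.single_eq_same, mul_one, h0, add_sub_add_right_eq_sub, sub_eq_zero] at h1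
    by_cases hc : col v = col u
    · rw [hc, Pi.single_eq_same, mul_one] at h1
      have h2 : (X ^ (π u).length - X ^ (π v).length : ℚ[X]) = 0 := by
        apply (transcendental_iff.1 htr)
        simp [h1]
      have h3 : (π u).length = (π v).length := by
        have := congrArg natDegree (sub_eq_zero.1 h2)
        simpa using this
      have h4 : pl (π u) - pl (π v) = 0 := by
        apply (transcendental_iff.1 htr)
        simp [h0]
      exact huv (hinj u v (pl_inj _ _ h3 (sub_eq_zero.1 h4)) hc.symm)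
    · rw [Pi.single_eq_of_ne hc, mul_zero] at h1
      exact pow_ne_zero _ hα0 h1
  let D : V → V → V → (γ → ℂ) → ℝ := fun u v w x =>
    ((P u x - P w x) * (starRingEnd ℂ) (P v x - P w x)).im
  have hDan : ∀ u v w, AnalyticOnNhd ℝ (D u v w) Set.univ := by
    intro u v w x hx
    have h1 : AnalyticAt ℝ (fun x => (starRingEnd ℂ) (P v x - P w x)) x :=
      (Complex.conjCLE.toContinuousLinearMap.analyticAt _).comp ((hPan v x hx).sub (hPan w x hx))
    exact (Complex.imCLM.analyticAt _).comp (((hPan u x hx).sub (hPan w x hx)).mul h1)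
  have hDne0 : ∀ u v w, col v ≠ col u → col w ≠ col u → v ≠ w → ∃ x, D u v w x ≠ 0 := by
    intro u v w h1 h2 h3
    obtain ⟨x0, hx0⟩ := hne v w h3
    set δ := P v x0 - P w x0 with hδ
    let s : ℂ := (Complex.I * δ + P w x0 - aeval α (pl (π u))) / α ^ (π u).length
    refine ⟨Function.update x0 (col u) s, ?_⟩
    have e1 : P v (Function.update x0 (col u) s) = P v x0 := by
      simp only [P, Function.update_of_ne h1]
    have e2 : P w (Function.update x0 (col u) s) = P w x0 := by
      simp only [P, Function.update_of_ne h2]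
    have e3 : P u (Function.update x0 (col u) s) = Complex.I * δ + P w x0 := by
      have : P u (Function.update x0 (col u) s) = α ^ (π u).length * s + aeval α (pl (π u)) := by
        simp only [P, Function.update_self]
      rw [this]
      simp only [s]
      rw [mul_div_cancel₀ _ (pow_ne_zero _ hα0)]
      ring
    simp only [D, e1, e2, e3, ← hδ, add_sub_cancel_right]
    rw [mul_assoc, Complex.mul_conj]
    simpa using hx0
  have hDne : ∀ u v w, G.Adj u v → w ≠ u → w ≠ v → ∃ x, D u v w x ≠ 0 := by
    intro u v w huv hwu hwv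
    by_cases h : col w = col u
    · obtain ⟨x, hx⟩ := hDne0 v u w (hcol u v huv) (h ▸ hcol u v huv) hwu.symm
      refine ⟨x, fun h0 => hx ?_⟩
      simp only [D, Complex.mul_im, Complex.conj_re, Complex.conj_im] at h0 ⊢
      linarith
    · exact hDne0 u v w (hcol u v huv).symm h hwv.symm
  have d1 : Dense (⋂ t : {t : V × V // t.1 ≠ t.2}, {x | P t.1.1 x - P t.1.2 x ≠ 0}) := by
    apply dense_iInter_of_isOpen
    · intro t
      exact isOpen_ne_fun ((hPan _).sub (hPan _)).continuous continuous_const
    · intro t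
      exact dense_ne_zero _ ((hPan _).sub (hPan _)) (hne _ _ t.2)
  have d2 : Dense (⋂ t : {t : V × V × V // G.Adj t.1 t.2.1 ∧ t.2.2 ≠ t.1 ∧ t.2.2 ≠ t.2.1},
      {x | D t.1.1 t.1.2.1 t.1.2.2 x ≠ 0}) := by
    apply dense_iInter_of_isOpen
    · intro t
      exact isOpen_ne_fun (hDan _ _ _).continuous continuous_const
    · intro t
      exact dense_ne_zero _ (hDan _ _ _) (hDne _ _ _ t.2.1 t.2.2.1 t.2.2.2)
  have o1 : IsOpen (⋂ t : {t : V × V // t.1 ≠ t.2}, {x | P t.1.1 x - P t.1.2 x ≠ 0}) :=
    isOpen_iInter_of_finite fun t =>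
      isOpen_ne_fun ((hPan _).sub (hPan _)).continuous continuous_const
  obtain ⟨x, hx1, hx2⟩ := (d1.inter_of_isOpen_left d2 o1).nonempty
  rw [Set.mem_iInter] at hx1 hx2
  refine ⟨fun v => P v x, ?_, ?_, ?_⟩
  · intro u v huv
    by_contra h
    exact hx1 ⟨(u, v), h⟩ (sub_eq_zero.2 huv)
  · intro u v w huv hwu hwv hseg
    apply hx2 ⟨(u, v, w), huv, hwu, hwv⟩
    obtain ⟨a, b, -, -, hab, hw⟩ := hseg
    have hb : b = 1 - a := by linarith
    subst hb
    simp only [D]
    have hw' : a • P u x + (1 - a) • P v x = P w x := hw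
    rw [← hw']
    generalize P u x = y
    generalize P v x = z
    simp only [Complex.real_smul, Complex.mul_im, Complex.conj_re, Complex.conj_im, Complex.sub_re,
      Complex.sub_im, Complex.add_re, Complex.add_im, Complex.mul_re, Complex.ofReal_re,
      Complex.ofReal_im]
    ring
  · have hPF : ∀ v, P v x = F α (π v) (x (col v)) := fun v => (F_eq α _ _).symm
    let g1 : γ × γ → ℝ := fun t => dist (x t.1) (x t.2)
    let g2 : γ × γ × Fin c → ℝ := fun t => dist (α * x t.1 + ((t.2.2 : ℕ) : ℂ)) (x t.2.1)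
    have hsub : {d : ℝ | ∃ u v, G.Adj u v ∧ dist (P u x) (P v x) = d} ⊆
        ((Finset.univ.image g1 ∪ Finset.univ.image g2 : Finset ℝ) : Set ℝ) := by
      rintro d ⟨u, v, huv, rfl⟩
      rw [Finset.coe_union]
      rcases hnear u v huv with h | ⟨a, h⟩ | ⟨a, h⟩
      · left
        refine Finset.mem_coe.2 (Finset.mem_image.2 ⟨(col u, col v), Finset.mem_univ _, ?_⟩)
        rw [hPF, hPF, h, F_dist hα]
      · right
        have ha : a < c := hlab u a (by rw [h]; simp)
        refine Finset.mem_coe.2
          (Finset.mem_image.2 ⟨(col u, col v, ⟨a, ha⟩), Finset.mem_univ _, ?_⟩)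
        rw [hPF, hPF, h, F_append, F_dist hα]
      · right
        have ha : a < c := hlab v a (by rw [h]; simp)
        refine Finset.mem_coe.2
          (Finset.mem_image.2 ⟨(col v, col u, ⟨a, ha⟩), Finset.mem_univ _, ?_⟩)
        rw [hPF, hPF, h, F_append, F_dist hα, dist_comm]
    refine (Set.ncard_le_ncard hsub (Finset.finite_toSet _)).trans ?_
    rw [Set.ncard_coe_finset]
    refine (Finset.card_union_le _ _).trans (Nat.add_le_add ?_ ?_)
    · exact Finset.card_image_le
    · exact Finset.card_image_le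

end Pool.Agent.P.MP_993692_co
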