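import Mathlib
import Pool.Agent.P.MP_993692_co.Geom

set_option autoImplicit false

namespace Pool.Agent.P.MP_993692_co

/-- Drawing from isometries `z ↦ ω v * z + t v` whose relative positions along edges take
finitely many values. -/
theorem draw2 {V γ σ : Type} [Fintype V] [Fintype γ] [Fintype σ] (G : SimpleGraph V)
    (ω t : V → ℂ) (col : V → γ) (hω : ∀ v, ‖ω v‖ = 1)
    (hinj : ∀ u v, ω u = ω v → t u = t v → col u = col v → u = v)
    (hcol : ∀ u v, G.Adj u v → col u ≠ col v) (A B C : σ → ℂ)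
    (hS : ∀ u v, G.Adj u v → ∃ s : σ, ∃ μ : ℂ, ‖μ‖ = 1 ∧ ω u = μ * A s ∧ ω v = μ * B s ∧
      t u - t v = μ * C s) :
    ∃ p : V → ℂ, Function.Injective p ∧
      (∀ u v w, G.Adj u v → w ≠ u → w ≠ v → p w ∉ segment ℝ (p u) (p v)) ∧
      {d : ℝ | ∃ u v, G.Adj u v ∧ dist (p u) (p v) = d}.ncard ≤ Fintype.card (γ × γ × σ) := by
  classical
  have hω0 : ∀ v, ω v ≠ 0 := by
    intro v h
    have := hω v
    rw [h] at this
    simp at this
  let P : V → (γ → ℂ) → ℂ := fun v x => ω v * x (col v) + t v
  have hPan : ∀ v, AnalyticOnNhd ℝ (P v) Set.univ := by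
    intro v x _
    have h1 : AnalyticAt ℝ (fun x : γ → ℂ => x (col v)) x :=
      (ContinuousLinearMap.proj (R := ℝ) (φ := fun _ : γ => ℂ) (col v)).analyticAt x
    exact (analyticAt_const.mul h1).add analyticAt_const
  have hne : ∀ u v, u ≠ v → ∃ x, P u x - P v x ≠ 0 := by
    intro u v huv
    by_contra h
    push Not at h
    have h0 := h 0
    have h1 := h (Pi.single (col u) 1)
    simp only [P, Pi.zero_apply, mul_zero, zero_add, sub_eq_zero] at h0
    simp only [P, Pi.single_eq_same, mul_one, h0, add_sub_add_right_eq_sub, sub_eq_zero] at h1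
    by_cases hc : col v = col u
    · rw [hc, Pi.single_eq_same, mul_one] at h1
      exact huv (hinj u v h1 h0 hc.symm)
    · rw [Pi.single_eq_of_ne hc, mul_zero] at h1
      exact hω0 _ h1
  let D : V → V → V → (γ → ℂ) → ℝ := fun u v w x =>
    ((P u x - P w x) * (starRingEnd ℂ) (P v x - P w x)).im
  have hDan : ∀ u v w, AnalyticOnNhd ℝ (D u v w) Set.univ := by
    intro u v w x hx
    have h1 : AnalyticAt ℝ (fun x => (starRingEnd ℂ) (P v x - P w x)) x :=
      (Complex.conjCLE.toContinuousLinearMap.analyticAt _).comp ((hPan v x hx).sub (hPan w x hx))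
    exact (Complex.imCLM.analyticAt _).comp (((hPan u x hx).sub (hPan w x hx)).mul h1)
  have hDne0 : ∀ u v w, col v ≠ col u → col w ≠ col u → v ≠ w → ∃ x, D u v w x ≠ 0 := by
    intro u v w h1 h2 h3
    obtain ⟨x0, hx0⟩ := hne v w h3
    set δ := P v x0 - P w x0 with hδ
    let s : ℂ := (Complex.I * δ + P w x0 - t u) / ω u
    refine ⟨Function.update x0 (col u) s, ?_⟩
    have e1 : P v (Function.update x0 (col u) s) = P v x0 := by
      simp only [P, Function.update_of_ne h1]
    have e2 : P w (Function.update x0 (col u) s) = P w x0 := by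
      simp only [P, Function.update_of_ne h2]
    have e3 : P u (Function.update x0 (col u) s) = Complex.I * δ + P w x0 := by
      have : P u (Function.update x0 (col u) s) = ω u * s + t u := by
        simp only [P, Function.update_self]
      rw [this]
      simp only [s]
      rw [mul_div_cancel₀ _ (hω0 _)]
      ring
    simp only [D, e1, e2, e3, ← hδ, add_sub_cancel_right]
    rw [mul_assoc, Complex.mul_conj]
    simpa using hx0
  have hDne : ∀ u v w, G.Adj u v → w ≠ u → w ≠ v → ∃ x, D u v w x ≠ 0 := by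
    intro u v w huv hwu hwv
    by_cases h : col w = col u
    · obtain ⟨x, hx⟩ := hDne0 v u w (hcol u v huv) (h ▸ hcol u v huv) hwu.symm
      refine ⟨x, fun h0 => hx ?_⟩
      simp only [D, Complex.mul_im, Complex.conj_re, Complex.conj_im] at h0 ⊢
      linarith
    · exact hDne0 u v w (hcol u v huv).symm h hwv.symm
  have d1 : Dense (⋂ t : {t : V × V // t.1 ≠ t.2}, {x | P t.1.1 x - P t.1.2 x ≠ 0}) := by
    apply dense_iInter_of_isOpen
    · intro t
      exact isOpen_ne_fun ((hPan _).sub (hPan _)).continuous continuous_const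
    · intro t
      exact dense_ne_zero _ ((hPan _).sub (hPan _)) (hne _ _ t.2)
  have d2 : Dense (⋂ t : {t : V × V × V // G.Adj t.1 t.2.1 ∧ t.2.2 ≠ t.1 ∧ t.2.2 ≠ t.2.1},
      {x | D t.1.1 t.1.2.1 t.1.2.2 x ≠ 0}) := by
    apply dense_iInter_of_isOpen
    · intro t
      exact isOpen_ne_fun (hDan _ _ _).continuous continuous_const
    · intro t
      exact dense_ne_zero _ (hDan _ _ _) (hDne _ _ _ t.2.1 t.2.2.1 t.2.2.2)
  have o1 : IsOpen (⋂ t : {t : V × V // t.1 ≠ t.2}, {x | P t.1.1 x - P t.1.2 x ≠ 0}) :=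
    isOpen_iInter_of_finite fun t =>
      isOpen_ne_fun ((hPan _).sub (hPan _)).continuous continuous_const
  obtain ⟨x, hx1, hx2⟩ := (d1.inter_of_isOpen_left d2 o1).nonempty
  rw [Set.mem_iInter] at hx1 hx2
  refine ⟨fun v => P v x, ?_, ?_, ?_⟩
  · intro u v huv
    by_contra h
    exact hx1 ⟨(u, v), h⟩ (sub_eq_zero.2 huv)
  · intro u v w huv hwu hwv hseg
    apply hx2 ⟨(u, v, w), huv, hwu, hwv⟩
    obtain ⟨a, b, -, -, hab, hw⟩ := hseg
    have hb : b = 1 - a := by linarith
    subst hb
    simp only [D]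
    have hw' : a • P u x + (1 - a) • P v x = P w x := hw
    rw [← hw']
    generalize P u x = y
    generalize P v x = z
    simp only [Complex.real_smul, Complex.mul_im, Complex.conj_re, Complex.conj_im, Complex.sub_re,
      Complex.sub_im, Complex.add_re, Complex.add_im, Complex.mul_re, Complex.ofReal_re,
      Complex.ofReal_im]
    ring
  · let g : γ × γ × σ → ℝ := fun q => ‖A q.2.2 * x q.1 - B q.2.2 * x q.2.1 + C q.2.2‖
    have hsub : {d : ℝ | ∃ u v, G.Adj u v ∧ dist (P u x) (P v x) = d} ⊆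
        ((Finset.univ.image g : Finset ℝ) : Set ℝ) := by
      rintro d ⟨u, v, huv, rfl⟩
      obtain ⟨s, μ, hμ, h1, h2, h3⟩ := hS u v huv
      refine Finset.mem_coe.2 (Finset.mem_image.2 ⟨(col u, col v, s), Finset.mem_univ _, ?_⟩)
      have e : P u x - P v x = μ * (A s * x (col u) - B s * x (col v) + C s) := by
        simp only [P]
        rw [h1, h2]
        linear_combination h3
      rw [dist_eq_norm, e, norm_mul, hμ, one_mul]
    refine (Set.ncard_le_ncard hsub (Finset.finite_toSet _)).trans ?_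
    rw [Set.ncard_coe_finset]
    exact Finset.card_image_le

end Pool.Agent.P.MP_993692_co
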