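import Mathlib

set_option autoImplicit false

namespace Pool.Agent.P.MP_993692_co

open Finset

/-- Weighted centroid of a finite tree, with the branches split into two light groups. -/
theorem centroid {ι : Type} [Fintype ι] [DecidableEq ι] (T : SimpleGraph ι) (hT : T.IsTree)
    (w : ι → ℕ) :
    ∃ (i : ι) (P : Finset ι), i ∉ P ∧ (∀ a b, T.Adj a b → a ∈ P → b ∈ P ∨ b = i) ∧
      4 * ∑ a ∈ P, w a ≤ 3 * ∑ a, w a ∧ 4 * ∑ a ∈ (insert i P)ᶜ, w a ≤ 3 * ∑ a, w a := by
  classical
  by_contra hcon
  push Not at hcon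
  have H : ∀ (i : ι) (P : Finset ι), i ∉ P → (∀ a b, T.Adj a b → a ∈ P → b ∈ P ∨ b = i) →
      4 * ∑ a ∈ P, w a ≤ 3 * ∑ a, w a → 3 * ∑ a, w a < 4 * ∑ a ∈ (insert i P)ᶜ, w a :=
    fun i P h1 h2 h3 => hcon i P h1 h2 h3
  have key : ∀ (n : ℕ) (i : ι) (P : Finset ι), P.card = n → i ∉ P →
      (∀ a b, T.Adj a b → a ∈ P → b ∈ P ∨ b = i) → 4 * ∑ a ∈ P, w a ≤ 3 * ∑ a, w a := by
    intro n
    induction n using Nat.strong_induction_on with
    | _ n ih =>
      intro i P hn hi hP
      rcases P.eq_empty_or_nonempty with rfl | ⟨a, ha⟩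
      · simp
      obtain ⟨p⟩ := hT.connected.preconnected a i
      obtain ⟨d, -, hd1, hd2⟩ := p.exists_boundary_dart (P : Set ι) (by simpa using ha)
        (by simpa using hi)
      have hd1' : d.fst ∈ P := by simpa using hd1
      have hd2' : d.snd ∉ P := by simpa using hd2
      have hdi : d.snd = i := (hP _ _ d.adj hd1').resolve_left hd2'
      set j := d.fst with hj
      have hji : T.Adj j i := hdi ▸ d.adj
      have hbr : ¬ (T.deleteEdges {s(j, i)}).Reachable j i :=
        SimpleGraph.isBridge_iff.1 (SimpleGraph.isAcyclic_iff_forall_adj_isBridge.1 hT.isAcyclic hji)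
      set K : Finset ι := univ.filter (fun x => (T.deleteEdges {s(j, i)}).Reachable j x) with hK
      have hjK : j ∈ K := by simp [hK]
      have hiK : i ∉ K := by simpa [hK] using hbr
      have hKcl : ∀ a b, T.Adj a b → a ∈ K → b ∈ K ∨ (a = j ∧ b = i) := by
        intro a b hab haK
        by_cases he : s(a, b) = s(j, i)
        · rcases Sym2.eq_iff.1 he with h | h
          · exact Or.inr h
          · exact absurd (h.1 ▸ haK) hiK
        · left
          have h1 : (T.deleteEdges {s(j, i)}).Reachable j a := by simpa [hK] using haK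
          have h2 : (T.deleteEdges {s(j, i)}).Adj a b := by
            rw [SimpleGraph.deleteEdges_adj]; exact ⟨hab, by simpa using he⟩
          simpa [hK] using h1.trans h2.reachable
      have hKP : K ⊆ P := by
        intro x hx
        have h1 : (T.deleteEdges {s(j, i)}).Reachable j x := by simpa [hK] using hx
        rw [SimpleGraph.reachable_iff_reflTransGen] at h1
        induction h1 with
        | refl => exact hd1'
        | @tail y z hy hyz ih2 =>
          have hyK : y ∈ K := by
            simpa [hK] using (SimpleGraph.reachable_iff_reflTransGen _ _).2 hy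
          have hyz' : T.Adj y z := (SimpleGraph.deleteEdges_adj.1 hyz).1
          rcases hP y z hyz' (ih2 hyK) with h | h
          · exact h
          · exact absurd (h ▸ hx) hiK
      have g1 : ∀ a b, T.Adj a b → a ∈ P \ K → b ∈ P \ K ∨ b = i := by
        intro a b hab ha
        rw [mem_sdiff] at ha
        rcases hP a b hab ha.1 with h | h
        · left
          refine mem_sdiff.2 ⟨h, fun hb => ?_⟩
          rcases hKcl b a hab.symm hb with h' | h'
          · exact ha.2 h'
          · exact hi (h'.2 ▸ ha.1)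
        · exact Or.inr h
      have g2 : ∀ a b, T.Adj a b → a ∈ K.erase j → b ∈ K.erase j ∨ b = j := by
        intro a b hab ha
        rw [mem_erase] at ha
        rcases hKcl a b hab ha.2 with h | h
        · by_cases hb : b = j
          · exact Or.inr hb
          · exact Or.inl (mem_erase.2 ⟨hb, h⟩)
        · exact absurd h.1 ha.1
      have c1 : (P \ K).card < n := by
        rw [← hn]
        exact card_lt_card (sdiff_ssubset hKP ⟨j, hjK⟩)
      have c2 : (K.erase j).card < n := by
        rw [← hn]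
        exact lt_of_lt_of_le (card_erase_lt_of_mem hjK) (card_le_card hKP)
      have hi1 : i ∉ P \ K := fun h => hi (mem_sdiff.1 h).1
      have e1 := H i _ hi1 g1 (ih _ c1 i _ rfl hi1 g1)
      have e2 := H j _ (notMem_erase j K) g2 (ih _ c2 j _ rfl (notMem_erase j K) g2)
      rw [insert_erase hjK] at e2
      have s1 := sum_add_sum_compl K w
      have s2 := sum_add_sum_compl (insert i (P \ K)) w
      rw [sum_insert hi1] at s2
      have s3 := sum_sdiff (f := w) hKP
      omega
  obtain ⟨i⟩ := hT.connected.nonempty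
  have h1 := H i ∅ (notMem_empty i) (by simp) (by simp)
  have h2 := key _ i (insert i (∅ : Finset ι))ᶜ rfl (by simp) (by
    intro a b _ _
    by_cases hb : b = i
    · exact Or.inr hb
    · left; simpa using hb)
  omega

/-- Balanced separators from a tree decomposition. -/
theorem separator {V : Type} [Fintype V] [DecidableEq V] (G : SimpleGraph V) (K : ℕ)
    (h : ∃ (ι : Type) (_ : Fintype ι) (T : SimpleGraph ι) (B : ι → Finset V),
        T.IsTree ∧ (∀ i, (B i).card ≤ K) ∧ (∀ v, ∃ i, v ∈ B i) ∧
        (∀ u v, G.Adj u v → ∃ i, u ∈ B i ∧ v ∈ B i) ∧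
        (∀ v i j, v ∈ B i → v ∈ B j → ∃ q : T.Walk i j, ∀ x ∈ q.support, v ∈ B x))
    (S : Finset V) :
    ∃ X A : Finset V, X.card ≤ K ∧ Disjoint A X ∧ (∀ u v, G.Adj u v → u ∈ A → v ∈ A ∨ v ∈ X) ∧
      4 * (S ∩ A).card ≤ 3 * S.card ∧ 4 * (S \ (A ∪ X)).card ≤ 3 * S.card := by
  classical
  obtain ⟨ι, _, T, B, hT, hB, hcov, hadj, hconn⟩ := h
  choose f hf using hcov
  obtain ⟨i, P, hi, hP, h1, h2⟩ := centroid T hT (fun a => (S.filter (fun v => f v = a)).card)
  have walk : ∀ (a b : ι) (q : T.Walk a b), a ∈ P → (∀ x ∈ q.support, x ≠ i) → b ∈ P := by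
    intro a b q
    induction q with
    | nil => exact fun h _ => h
    | @cons a c b hac q ih =>
      intro ha hq
      apply ih
      · refine (hP a c hac ha).resolve_right (hq c ?_)
        simp
      · intro x hx
        exact hq x (by simp [hx])
  have hs : ∀ Q : Finset ι, ∑ a ∈ Q, (S.filter (fun v => f v = a)).card
      = (S.filter (fun v => f v ∈ Q)).card := fun Q => by
    convert sum_card_fiberwise_eq_card_filter S Q f
  rw [hs, hs] at h1 h2
  have hS : S.filter (fun v => f v ∈ (univ : Finset ι)) = S := by simp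
  rw [hS] at h1 h2
  refine ⟨B i, univ.filter (fun v => v ∉ B i ∧ f v ∈ P), hB i, ?_, ?_, ?_, ?_⟩
  · rw [disjoint_left]
    intro v hv
    exact (mem_filter.1 hv).2.1
  · intro u v huv hu
    obtain ⟨hu1, hu2⟩ := (mem_filter.1 hu).2
    by_cases hv : v ∈ B i
    · exact Or.inr hv
    left
    obtain ⟨j, hj1, hj2⟩ := hadj u v huv
    obtain ⟨q1, hq1⟩ := hconn u (f u) j (hf u) hj1
    obtain ⟨q2, hq2⟩ := hconn v j (f v) hj2 (hf v)
    have hj : j ∈ P := walk _ _ q1 hu2 (fun x hx hxi => hu1 (hxi ▸ hq1 x hx))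
    exact mem_filter.2 ⟨mem_univ _, hv, walk _ _ q2 hj (fun x hx hxi => hv (hxi ▸ hq2 x hx))⟩
  · refine le_trans (Nat.mul_le_mul_left 4 (card_le_card ?_)) h1
    intro v hv
    rw [mem_inter, mem_filter] at hv
    exact mem_filter.2 ⟨hv.1, hv.2.2.2⟩
  · refine le_trans (Nat.mul_le_mul_left 4 (card_le_card ?_)) h2
    intro v hv
    rw [mem_sdiff, mem_union, not_or, mem_filter] at hv
    refine mem_filter.2 ⟨hv.1, ?_⟩
    rw [mem_compl, mem_insert, not_or]
    refine ⟨fun h => hv.2.2 (h ▸ hf v), fun h => hv.2.1 ⟨mem_univ _, hv.2.2, h⟩⟩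

end Pool.Agent.P.MP_993692_co
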