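import Mathlib
import Pool.Agent.P.MP_993692_co.Sep
import Pool.Agent.P.MP_993692_co.Geom

set_option autoImplicit false

namespace Pool.Agent.P.MP_993692_co

open Finset

theorem main :
    ∀ k ℓ : ℕ, ∃ D : ℕ, ∀ (V : Type) [Fintype V] (G : SimpleGraph V),
      (∃ (ι : Type) (_ : Fintype ι) (T : SimpleGraph ι) (B : ι → Finset V),
        T.IsTree ∧ (∀ i, (B i).card ≤ k + 1) ∧ (∀ v, ∃ i, v ∈ B i) ∧
        (∀ u v, G.Adj u v → ∃ i, u ∈ B i ∧ v ∈ B i) ∧
        (∀ v i j, v ∈ B i → v ∈ B j → ∃ q : T.Walk i j, ∀ x ∈ q.support, v ∈ B x)) →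
      (∀ v, (G.neighborSet v).ncard ≤ ℓ) →
      ∃ p : V → EuclideanSpace ℝ (Fin 2), Function.Injective p ∧
        (∀ u v w, G.Adj u v → w ≠ u → w ≠ v → p w ∉ segment ℝ (p u) (p v)) ∧
        {d : ℝ | ∃ u v, G.Adj u v ∧ dist (p u) (p v) = d}.ncard ≤ D := by
  intro k ℓ
  set c := 2 * (24 * (k + 1) * ℓ + 1) with hc
  refine ⟨Fintype.card ((Fin c × ZMod 2) × (Fin c × ZMod 2)) +
    Fintype.card ((Fin c × ZMod 2) × (Fin c × ZMod 2) × Fin c), ?_⟩
  intro V _ G htw hdeg
  classical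
  have hdeg' : ∀ v, (G.neighborFinset v).card ≤ ℓ := by
    intro v
    have := hdeg v
    rwa [← SimpleGraph.coe_neighborFinset, Set.ncard_coe_finset] at this
  obtain ⟨π, hnear, hfib, hlab⟩ := place G (k + 1) ℓ (Nat.succ_pos k) hdeg'
    (separator G (k + 1) htw)
  have hemb : ∀ l : List ℕ, Nonempty ({v // π v = l} ↪ Fin c) := by
    intro l
    apply Function.Embedding.nonempty_of_card_le
    rw [Fintype.card_fin, Fintype.card_subtype]
    exact hfib l
  let E : ∀ l : List ℕ, {v // π v = l} ↪ Fin c := fun l => Classical.choice (hemb l)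
  let idx : V → Fin c := fun v => E (π v) ⟨v, rfl⟩
  have hidx : ∀ u v, π u = π v → idx u = idx v → u = v := by
    intro u v h1 h2
    have aux : ∀ (l : List ℕ) (h : π u = l), idx u = E l ⟨u, h⟩ := by
      intro l h
      subst h
      rfl
    rw [aux (π v) h1] at h2
    exact congrArg Subtype.val ((E (π v)).injective h2)
  let col : V → Fin c × ZMod 2 := fun v => (idx v, ((π v).length : ZMod 2))
  have hcol : ∀ u v, G.Adj u v → col u ≠ col v := by
    intro u v huv h
    have h1 : idx u = idx v := congrArg Prod.fst h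
    have h2 : ((π u).length : ZMod 2) = ((π v).length : ZMod 2) := congrArg Prod.snd h
    rcases hnear u v huv with h3 | ⟨a, h3⟩ | ⟨a, h3⟩
    · exact huv.ne (hidx u v h3 h1)
    · rw [h3] at h2
      simp at h2
    · rw [h3] at h2
      simp at h2
  obtain ⟨p, hp1, hp2, hp3⟩ := draw G c π col
    (fun u v h1 h2 => hidx u v h1 (congrArg Prod.fst h2)) hcol hnear hlab
  let e : ℂ ≃ₗᵢ[ℝ] EuclideanSpace ℝ (Fin 2) := Complex.orthonormalBasisOneI.repr
  refine ⟨fun v => e (p v), e.injective.comp hp1, ?_, ?_⟩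
  · intro u v w huv hwu hwv hseg
    apply hp2 u v w huv hwu hwv
    obtain ⟨a, b, ha, hb, hab, hw⟩ := hseg
    refine ⟨a, b, ha, hb, hab, e.injective ?_⟩
    rw [map_add, map_smul, map_smul]
    exact hw
  · simpa only [LinearIsometryEquiv.dist_map] using hp3

end Pool.Agent.P.MP_993692_co
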