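import Mathlib
import Pool.Agent.P.MP_993692_co.Sep
import Pool.Agent.P.MP_993692_co.Draw2
import Pool.Agent.P.MP_993692_co.Arith

set_option autoImplicit false

namespace Pool.Agent.P.MP_993692_co

open Finset

theorem exists_moduli (c : ℕ) : ∃ m : ℕ → ℕ,
    (∀ i j, i ≠ j → Nat.Coprime (gq (m i)) (gq (m j))) ∧ (∀ i, 0 < m i) ∧ ∀ i, c ≤ gq (m i) := by
  have e : ∀ i, gq (2 ^ (2 ^ (c + i) - 1)) = Nat.fermatNumber (c + i + 1) := by
    intro i
    have h : 2 ^ (c + i) - 1 + 1 = 2 ^ (c + i) := Nat.sub_add_cancel Nat.one_le_two_pow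
    rw [gq, Nat.fermatNumber, ← pow_succ', h, ← pow_mul, ← pow_succ]
  refine ⟨fun i => 2 ^ (2 ^ (c + i) - 1), fun i j hij => ?_, fun i => by positivity, fun i => ?_⟩
  · rw [e, e]
    exact Nat.coprime_fermatNumber_fermatNumber (by omega)
  · rw [e, Nat.fermatNumber]
    have h1 : c + i + 1 < 2 ^ (c + i + 1) := Nat.lt_two_pow_self
    have h2 : 2 ^ (c + i + 1) < 2 ^ 2 ^ (c + i + 1) := Nat.lt_two_pow_self
    omega

theorem index_of_fibres {W : Type} [Fintype W] [DecidableEq W] (c : ℕ) (π : W → List ℕ)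
    (hfib : ∀ l, (univ.filter (fun v => π v = l)).card ≤ c) :
    ∃ idx : W → Fin c, ∀ u v, π u = π v → idx u = idx v → u = v := by
  have hemb : ∀ l : List ℕ, Nonempty ({v // π v = l} ↪ Fin c) := by
    intro l
    apply Function.Embedding.nonempty_of_card_le
    rw [Fintype.card_fin, Fintype.card_subtype]
    exact hfib l
  let E : ∀ l : List ℕ, {v // π v = l} ↪ Fin c := fun l => Classical.choice (hemb l)
  refine ⟨fun v => E (π v) ⟨v, rfl⟩, fun u v h1 h2 => ?_⟩
  have aux : ∀ (l : List ℕ) (h : π u = l), E (π u) ⟨u, rfl⟩ = E l ⟨u, h⟩ := by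
    intro l h
    subst h
    rfl
  simp only [aux (π v) h1] at h2
  exact congrArg Subtype.val ((E (π v)).injective h2)

theorem near_parity {l l' : List ℕ} (h : Near l l')
    (h2 : (l.length : ZMod 2) = (l'.length : ZMod 2)) : l = l' := by
  rcases h with h3 | ⟨a, h3⟩ | ⟨a, h3⟩
  · exact h3
  · rw [h3] at h2
    simp at h2
  · rw [h3] at h2
    simp at h2

/-- Graphs placed on `r`-tuples of words with bounded letters and bounded fibres. -/
theorem draw_words (r c e : ℕ) : ∃ D : ℕ, ∀ (V : Type) [Fintype V] (G : SimpleGraph V)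
    (w : V → Fin r → List ℕ) (idx : V → Fin r → Fin e), (∀ v i, ∀ a ∈ w v i, a < c) →
      (∀ u v, w u = w v → idx u = idx v → u = v) →
      (∀ u v, G.Adj u v → ∀ i, Near (w u i) (w v i)) →
      ∃ p : V → EuclideanSpace ℝ (Fin 2), Function.Injective p ∧
        (∀ u v w, G.Adj u v → w ≠ u → w ≠ v → p w ∉ segment ℝ (p u) (p v)) ∧
        {d : ℝ | ∃ u v, G.Adj u v ∧ dist (p u) (p v) = d}.ncard ≤ D := by
  obtain ⟨m, hm1, hm2, hm3⟩ := exists_moduli c
  refine ⟨Fintype.card ((Fin r → Fin e × ZMod 2) × (Fin r → Fin e × ZMod 2) ×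
    ((Fin r → Fin 2) × (Fin r → Fin 2) × Box (2 * ∏ i : Fin r, gq (m i)))), ?_⟩
  intro V _ G w idx hlab hidx hnear
  obtain ⟨ω, t, A, B, C, h1, h2, h3⟩ := arith c (fun i : Fin r => m i)
    (fun i j hij => hm1 i j (fun h => hij (Fin.ext h))) (fun i => hm2 i) (fun i => hm3 i) w hlab
  let col : V → Fin r → Fin e × ZMod 2 := fun v i => (idx v i, ((w v i).length : ZMod 2))
  have hc1 : ∀ u v, col u = col v → idx u = idx v := fun u v h =>
    funext fun i => congrArg Prod.fst (congrFun h i)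
  obtain ⟨p, hp1, hp2, hp3⟩ := draw2 G ω t col h1
    (fun u v a b d => hidx u v (h2 u v a b) (hc1 u v d))
    (fun u v huv h => huv.ne (hidx u v
      (funext fun i => near_parity (hnear u v huv i) (congrArg Prod.snd (congrFun h i)))
      (hc1 u v h)))
    A B C (fun u v huv => h3 u v (hnear u v huv))
  let E : ℂ ≃ₗᵢ[ℝ] EuclideanSpace ℝ (Fin 2) := Complex.orthonormalBasisOneI.repr
  refine ⟨fun v => E (p v), E.injective.comp hp1, ?_, ?_⟩
  · intro u v x huv hwu hwv hseg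
    apply hp2 u v x huv hwu hwv
    obtain ⟨a, b, ha, hb, hab, hw⟩ := hseg
    refine ⟨a, b, ha, hb, hab, E.injective ?_⟩
    rw [map_add, map_smul, map_smul]
    exact hw
  · simpa only [LinearIsometryEquiv.dist_map] using hp3

theorem prod_main :
    ∀ r k ℓ : ℕ, ∃ D : ℕ, ∀ (W : Fin r → Type) [∀ i, Fintype (W i)] (H : ∀ i, SimpleGraph (W i)),
      (∀ i, ∃ (ι : Type) (_ : Fintype ι) (T : SimpleGraph ι) (B : ι → Finset (W i)),
        T.IsTree ∧ (∀ a, (B a).card ≤ k + 1) ∧ (∀ v, ∃ a, v ∈ B a) ∧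
        (∀ u v, (H i).Adj u v → ∃ a, u ∈ B a ∧ v ∈ B a) ∧
        (∀ v a b, v ∈ B a → v ∈ B b → ∃ q : T.Walk a b, ∀ x ∈ q.support, v ∈ B x)) →
      (∀ i v, ((H i).neighborSet v).ncard ≤ ℓ) →
      ∀ (V : Type) [Fintype V] (G : SimpleGraph V) (f : V → ∀ i, W i), Function.Injective f →
        (∀ u v, G.Adj u v → ∀ i, f u i = f v i ∨ (H i).Adj (f u i) (f v i)) →
        ∃ p : V → EuclideanSpace ℝ (Fin 2), Function.Injective p ∧
          (∀ u v w, G.Adj u v → w ≠ u → w ≠ v → p w ∉ segment ℝ (p u) (p v)) ∧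
          {d : ℝ | ∃ u v, G.Adj u v ∧ dist (p u) (p v) = d}.ncard ≤ D := by
  intro r k ℓ
  obtain ⟨D, hD⟩ := draw_words r (2 * (24 * (k + 1) * ℓ + 1)) (2 * (24 * (k + 1) * ℓ + 1))
  refine ⟨D, fun W _ H htw hdeg V _ G f hf hadj => ?_⟩
  classical
  have hdeg' : ∀ i v, ((H i).neighborFinset v).card ≤ ℓ := by
    intro i v
    have := hdeg i v
    rwa [← SimpleGraph.coe_neighborFinset, Set.ncard_coe_finset] at this
  choose π hnear hfib hlab using fun i => place (H i) (k + 1) ℓ (Nat.succ_pos k) (hdeg' i)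
    (separator (H i) (k + 1) (htw i))
  choose idx hidx using fun i => index_of_fibres _ (π i) (hfib i)
  refine hD V G (fun v i => π i (f v i)) (fun v i => idx i (f v i)) (fun v i => hlab i _) ?_ ?_
  · intro u v h1 h2
    exact hf (funext fun i => hidx i _ _ (congrFun h1 i) (congrFun h2 i))
  · intro u v huv i
    rcases hadj u v huv i with h | h
    · exact Or.inl (by rw [h])
    · exact hnear i _ _ h

end Pool.Agent.P.MP_993692_co
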